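import Pool.Agent.UL6.Stmts2
import Pool.Agent.Helper90_UL3.ADJ

/-!
# Squad UL6 (MP_c7c9bf_co), row DSL: the slab arrangement of the double frustum
-/

set_option autoImplicit false

namespace Pool.Agent.UL6.H66

open MeasureTheory Set Pool.Agent.UL3 Pool.Agent.UL4 Pool.Agent.UL5 Pool.Agent.UL6

/-- **DSL** -/
theorem dsl (seb : SebStmt) (dlb : DlbStmt) (tdds : TddStmt) : DslStmt := by
  intro C t hC h1 h2
  have ht0 : (0 : ℝ) ≤ t := by linarith
  have ht1 : t ≤ 1 := by linarith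
  obtain ⟨u, q, hu, hui, hH, hcr, hq⟩ := seb C t hC h1 h2
  obtain ⟨v, hv0, hvA, hvd⟩ := dlb C u q t hC ht0 ht1 hu hui (by linarith) hq
  obtain ⟨hSB, hV, -⟩ := tdds C t hC ht0 ht1
  refine ⟨v, hv0, Pool.Agent.UL3.H90.adj _ v hSB hvA, ?_⟩
  rw [hV, hvd]
  linarith

end Pool.Agent.UL6.H66
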